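import Pool.Agent.K1H17.SC.Stm

/-!
Project SC, piece SC-1 (`S_TRI`): generators of the right number are independent.
-/

set_option autoImplicit false
set_option linter.overlappingInstances false

open Polynomial IntermediateField

namespace Pool.Agent.K1H21.SC

open Pool.Agent.K1H17.SC

section

variable {k L : Type} [Field k] [Field L] [Algebra k L] {ι : Type}

/-- the elements of `L` which are algebraic over the subalgebra `R` -/
private def CF (M : IntermediateField k L) (R : Subalgebra M L) : IntermediateField k L where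
  carrier := {y | IsAlgebraic R y}
  mul_mem' := IsAlgebraic.mul
  add_mem' := IsAlgebraic.add
  algebraMap_mem' c :=
    isAlgebraic_algebraMap (⟨algebraMap M L (algebraMap k M c), R.algebraMap_mem _⟩ : R)
  inv_mem' _ := IsAlgebraic.inv

private lemma mem_CF {M : IntermediateField k L} {R : Subalgebra M L} {y : L} :
    y ∈ CF M R ↔ IsAlgebraic R y := Iff.rfl

private lemma le_CF {M : IntermediateField k L} {R : Subalgebra M L} {y : L} (h : y ∈ R) :
    y ∈ CF M R := isAlgebraic_algebraMap (⟨y, h⟩ : R)

private lemma CF_mono {M : IntermediateField k L} {R R' : Subalgebra M L} (h : R ≤ R') :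
    CF M R ≤ CF M R' := by
  intro y hy
  rw [mem_CF] at hy ⊢
  let : Algebra R R' := (Subalgebra.inclusion h).toAlgebra
  have : IsScalarTower R R' L := .of_algebraMap_eq fun ⟨y, _⟩ => rfl
  exact hy.extendScalars (Subalgebra.inclusion_injective h)

private lemma base_le_CF (M : IntermediateField k L) (R : Subalgebra M L) : M ≤ CF M R :=
  fun y hy => le_CF (R.algebraMap_mem (⟨y, hy⟩ : M))

private lemma sc_le {M E : IntermediateField k L} {T : Finset ι} {s : ℕ} {x : ι → L}
    {f : ι → k[X]} {A : Fin s → ι → ℤ} {m : Fin s → ℕ} {τ z : Fin s → L}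
    (h : IsSC M E T x f A m τ z) :
    E ≤ CF M (Algebra.adjoin M (Set.range fun i : T => x i)) := by
  set R := Algebra.adjoin M (Set.range fun i : T => x i) with hR
  have hx : ∀ i ∈ T, x i ∈ CF M R := fun i hi =>
    le_CF (Algebra.subset_adjoin ⟨⟨i, hi⟩, rfl⟩)
  rw [← h.gen]
  refine sup_le (sup_le (base_le_CF M R) ?_) ?_
  · rw [adjoin_le_iff]
    rintro _ ⟨i, hi, rfl⟩
    exact hx i hi
  · rw [adjoin_le_iff]
    rintro _ ⟨j, rfl⟩
    have h1 : z j ^ m j ∈ CF M R := by
      rw [h.root j]
      refine mul_mem (base_le_CF M R (h.mem j)) (prod_mem fun i hi => zpow_mem ?_ _)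
      have e : aeval (x i) (f i) =
          ((aeval (⟨x i, hx i hi⟩ : CF M R) (f i) : CF M R) : L) :=
        IntermediateField.aeval_coe (CF M R) ⟨x i, hx i hi⟩ (f i)
      rw [e]
      exact SetLike.coe_mem _
    exact IsAlgebraic.of_pow (h.pos j) h1

open AlgebraicIndependent in
theorem t_TRI_aux {M E E' : IntermediateField k L} {T T' : Finset ι} {s s' n : ℕ} {x : ι → L}
    {f : ι → k[X]} {A : Fin s → ι → ℤ} {m : Fin s → ℕ} {τ z : Fin s → L}
    {A' : Fin s' → ι → ℤ} {m' : Fin s' → ℕ} {τ' z' : Fin s' → L} {t : Fin n → L}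
    (h : IsSC M E T x f A m τ z) (h' : IsSC M E' T' x f A' m' τ' z')
    (hc : T'.card + n = T.card) (hE : E' ⊔ adjoin k (Set.range t) = E) :
    AlgebraicIndependent E' t := by
  classical
  set xT : T → L := fun i => x i with hxT
  set xT' : T' → L := fun i => x i with hxT'
  obtain ⟨y, hy⟩ : ∃ y : Fin n ⊕ T' → L, y = Sum.elim t xT' := ⟨_, rfl⟩
  set R1 := Algebra.adjoin M (Set.range xT') with hR1
  set R3 := Algebra.adjoin M (Set.range y) with hR3
  have h13 : R1 ≤ R3 := by
    refine Algebra.adjoin_mono ?_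
    rintro _ ⟨i, rfl⟩
    exact ⟨Sum.inr i, by rw [hy]; rfl⟩
  have hE'1 : E' ≤ CF M R1 := sc_le h'
  have hE3 : E ≤ CF M R3 := by
    rw [← hE]
    refine sup_le (hE'1.trans (CF_mono h13)) ?_
    rw [adjoin_le_iff]
    rintro _ ⟨i, rfl⟩
    exact le_CF (Algebra.subset_adjoin ⟨Sum.inl i, by rw [hy]; rfl⟩)
  have hxE : ∀ i ∈ T, x i ∈ E := by
    intro i hi
    rw [← h.gen]
    exact (le_sup_right.trans le_sup_left : adjoin k (x '' T) ≤ _)
      (subset_adjoin k _ ⟨i, hi, rfl⟩)
  -- ranks in the matroid
  set 𝓜 := AlgebraicIndependent.matroid M L with hM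
  have i1 : 𝓜.Indep (Set.range xT) := by
    rw [hM, AlgebraicIndependent.matroid_indep_iff]
    exact h.indep.to_subtype_range
  have i2 : Set.range xT ⊆ 𝓜.closure (Set.range y) := by
    rintro _ ⟨i, rfl⟩
    rw [hM, AlgebraicIndependent.matroid_closure_eq]
    exact hE3 (hxE i i.2)
  have i3 : (Set.range xT).encard = T.card := by
    rw [← Set.image_univ, h.indep.injective.encard_image, Set.encard_univ]
    simp
  have i4 : (T.card : ℕ∞) ≤ 𝓜.eRk (Set.range y) := by
    rw [← i3, ← Matroid.eRk_closure_eq]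
    exact i1.encard_le_eRk_of_subset i2
  have i5 : (Set.range y).encard ≤ T.card := by
    rw [← Set.image_univ]
    refine (Set.encard_image_le _ _).trans ?_
    rw [Set.encard_univ]
    simp only [ENat.card_eq_coe_fintype_card, Fintype.card_sum, Fintype.card_fin,
      Fintype.card_coe]
    rw [← hc, add_comm]
  have i6 : 𝓜.eRk (Set.range y) = (Set.range y).encard :=
    le_antisymm (𝓜.eRk_le_encard _) (i5.trans i4)
  have i7 : 𝓜.Indep (Set.range y) :=
    (Matroid.indep_iff_eRk_eq_encard_of_finite (Set.finite_range y)).2 i6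
  have i8 : Function.Injective y := by
    have e1 : (Set.range y).encard = T.card := le_antisymm i5 (i4.trans (𝓜.eRk_le_encard _))
    rw [← Set.injOn_univ]
    refine (Set.finite_univ).injOn_of_encard_image_eq ?_
    rw [Set.image_univ, e1, Set.encard_univ]
    simp only [ENat.card_eq_coe_fintype_card, Fintype.card_sum, Fintype.card_fin,
      Fintype.card_coe]
    rw [← hc, add_comm]
  have i9 : AlgebraicIndependent M y := by
    refine AlgebraicIndependent.of_subtype_range i8 ?_
    rw [hM, AlgebraicIndependent.matroid_indep_iff] at i7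
    exact i7
  rw [hy] at i9
  have i10 := (AlgebraicIndependent.sumElim_iff.1 i9).2
  have hR1E : ∀ r : R1, (r : L) ∈ E' := by
    intro r
    have hM' : M ≤ E' := by
      rw [← h'.gen]; exact le_sup_left.trans le_sup_left
    have hle : R1 ≤ (extendScalars hM').toSubalgebra := by
      refine Algebra.adjoin_le ?_
      rintro _ ⟨i, rfl⟩
      show x i ∈ E'
      rw [← h'.gen]
      exact (le_sup_right.trans le_sup_left : adjoin k (x '' T') ≤ _)
        (subset_adjoin k _ ⟨i, i.2, rfl⟩)
    exact hle r.2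
  let φ : R1 →+* E' :=
    { toFun := fun r => ⟨r, hR1E r⟩
      map_one' := rfl
      map_mul' := fun _ _ => rfl
      map_zero' := rfl
      map_add' := fun _ _ => rfl }
  let : Algebra R1 E' := φ.toAlgebra
  have : IsScalarTower R1 E' L := .of_algebraMap_eq fun _ => rfl
  have : Algebra.IsAlgebraic R1 E' := by
    refine ⟨fun y => ?_⟩
    have h1 : IsAlgebraic R1 (y : L) := hE'1 y.2
    exact (isAlgebraic_algebraMap_iff (R := R1) (A := L) (S := E')
      (algebraMap E' L).injective).1 h1
  exact i10.extendScalars E'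

end

theorem t_TRI : S_TRI := by
  intro k L _ _ _ ι M E E' T T' s s' n x f A m τ z A' m' τ' z' t h h' _ hc hE
  exact t_TRI_aux h h' hc hE

end Pool.Agent.K1H21.SC
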